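import Pool.Agent.MUF.Inter

/-!
# MP_a83bb2_an: finite index subfactors which contain an ultraproduct of subalgebras

Let `U` be a non-principal ultrafilter on `ℕ` and let `Q ⊆ M^U` be the set of the classes of the
bounded sequences with `n`-th member in `A n`, where `A n` is a unital *-subalgebra of the algebra
of `n × n` matrices. Suppose that `Q` is a factor of finite index in `M^U` and that `N` is a
subfactor of `M^U` of finite index `d` which contains `Q` (for example `N = Q`). Then `d = l ^ 2`,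
there are matrix units `e i j` (`i, j < l`) in `N' ∩ M^U` such that `M^U = ⊕ N e i j`, and `N` is
isomorphic to the matrix ultraproduct for the image of `U` under `n ↦ ⌊n / l⌋`. If moreover
`N' ∩ M^U = ℂ`, then `N = M^U`.
-/

set_option autoImplicit false

open Pool.Agent.MUF

namespace Pool.Agent.Results.MP_a83bb2_an.InternalSubfactors

theorem result (U : Ultrafilter ℕ) (hU : (U : Filter ℕ) ≤ Filter.cofinite)
    (A : ∀ n : ℕ, StarSubalgebra ℂ (Matrix (Fin n) (Fin n) ℂ)) (Q N : Sub U)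
    (hQ : ∀ x, Mem Q x ↔ ∃ a : BSeq, (∀ n, a.val n ∈ A n) ∧ mk U a = x)
    (c : ℝ) (hc : IsIndex Q (full U) c) (hQN : ∀ x, Mem Q x → Mem N x)
    (d : ℝ) (hd : IsIndex N (full U) d) :
    (∃ (l : ℕ) (e : Fin l → Fin l → MU U), d = (l : ℝ) ^ 2 ∧
      (∃ f, IsIso N (full (U.map fun n => n / l)) f) ∧
      ((U.map fun n => n / l : Ultrafilter ℕ) : Filter ℕ) ≤ Filter.cofinite ∧
      (∀ i j, Comm N (e i j)) ∧ (∀ i j, star (e i j) = e j i) ∧
      (∀ i j k r, e i j * e k r = if j = k then e i r else 0) ∧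
      (∀ i, e i i ≠ 0) ∧ ∑ i, e i i = 1 ∧
      ∀ x, ∃ y : Fin l → Fin l → MU U, (∀ i j, Mem N (y i j)) ∧ x = ∑ i, ∑ j, y i j * e i j) ∧
    ((∀ z, Comm N z → IsScalar z) → N = full U) := by
  obtain ⟨k, E, m, hI⟩ := finIndex_of_isIndex hd
  obtain ⟨k', E', m', hI'⟩ := finIndex_of_isIndex hc
  have hUP : UP A (show StarSubalgebra ℂ (MU U) from Q) := by
    intro x
    refine (hQ x).trans ⟨?_, ?_⟩
    · rintro ⟨a, ha, rfl⟩
      exact ⟨⟨a.val, a.bdd⟩, ha, rfl⟩
    · rintro ⟨a, ha, rfl⟩
      exact ⟨toB a, ha, rfl⟩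
  obtain ⟨l, e, h1, h2, h3, h4, h5, h6, h7, h8, h9⟩ := inter_main hU hUP hI' hQN hI
  refine ⟨⟨l, e, h1, h2, h3, h4, h5, h6, h7, h8, h9⟩, fun hirr => ?_⟩
  have hone : ∀ i, e i i = 1 := by
    intro i
    obtain ⟨s, hs⟩ := hirr (e i i) (h4 i i)
    have e1 := h6 i i i i
    rw [if_pos rfl, hs, ← map_mul] at e1
    have hs0 : s ≠ 0 := by
      intro h0
      refine h7 i ?_
      rw [hs, h0, map_zero]
    have e2 : algebraMap ℂ (MU U) (s * s - s) = 0 := by rw [map_sub, e1, sub_self]
    have e3 : s * s - s = 0 := by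
      have e4 := congrArg (tau U) e2
      rw [Algebra.algebraMap_eq_smul_one, map_smul, tau_one hU, map_zero, smul_eq_mul,
        mul_one] at e4
      exact e4
    have e5 : s = 1 := by
      have e6 : s * (s - 1) = 0 := by
        rw [mul_sub, mul_one]
        exact e3
      exact sub_eq_zero.1 ((mul_eq_zero.1 e6).resolve_left hs0)
    rw [hs, e5, map_one]
  have hne : (1 : MU U) ≠ 0 := by
    intro e1
    have e2 := tau_one hU
    rw [e1, map_zero] at e2
    exact zero_ne_one e2
  have hij : ∀ i j : Fin l, i = j := by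
    intro i j
    by_contra hcon
    have e1 := h6 i i j j
    rw [if_neg hcon, hone i, hone j, mul_one] at e1
    exact hne e1
  have hmem : ∀ x, x ∈ (show StarSubalgebra ℂ (MU U) from N) := by
    intro x
    obtain ⟨y, hy, hx⟩ := h9 x
    rw [hx]
    refine sum_mem fun i _ => sum_mem fun j _ => ?_
    rw [hij j i, hone i, mul_one]
    exact hy i i
  exact (StarSubalgebra.ext fun x => ⟨fun _ => trivial, fun _ => hmem x⟩ :
    (show StarSubalgebra ℂ (MU U) from N) = ⊤)

end Pool.Agent.Results.MP_a83bb2_an.InternalSubfactors
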