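import Pool.Agent.MUF.Chain

/-!
# MP_a83bb2_an: finite index subfactors of matrix ultraproducts

Let `U` be a non-principal ultrafilter on `ℕ`.

(1) Every `N` in the class `Chain U` is isomorphic to a matrix ultraproduct. The class contains for
example all finite index subfactors `N` of `M^U` with `N' ∩ M^U ≠ ℂ` and index smaller than 8.

(2) If `P` is in this class (for example `P = M^U`) and `N ⊆ P` is a subfactor of finite index `d`,
then `N` is isomorphic to an irreducible subfactor of a matrix ultraproduct, of index `δ` with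
`δ S ≤ d` for a given `S` with `Parts N P S`, and `δ ≥ 2` or `δ = 1` and this subfactor is the
matrix ultraproduct itself.
-/

set_option autoImplicit false

open Pool.Agent.MUF

namespace Pool.Agent.Results.MP_a83bb2_an.IrreducibleReduction

theorem result (U : Ultrafilter ℕ) (hU : (U : Filter ℕ) ≤ Filter.cofinite) (N : Sub U) :
    (Chain U N → ∃ V : Ultrafilter ℕ, (V : Filter ℕ) ≤ Filter.cofinite ∧
      ∃ f, IsIso N (full V) f) ∧
    ∀ (P : Sub U) (d S : ℝ), Chain U P → IsIndex N P d → Parts N P S →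
      ∃ (V : Ultrafilter ℕ) (φ : ℕ → ℕ) (N₁ : Sub V) (δ : ℝ),
        V = U.map φ ∧ (∃ T ∈ U, Set.InjOn φ T) ∧ (V : Filter ℕ) ≤ Filter.cofinite ∧
        (∃ f, IsIso N N₁ f) ∧ IsIndex N₁ (full V) δ ∧ (∀ z, Comm N₁ z → IsScalar z) ∧
        δ * S ≤ d ∧ (2 ≤ δ ∨ δ = 1 ∧ N₁ = full V) := by
  refine ⟨fun hN => ?_, fun P d S hP hN hS => ?_⟩
  · obtain ⟨V, φ, -, -, hVn, f, hf⟩ := chain_good hU hN
    refine ⟨V, hVn, isIso_of_equiv (f.trans (StarAlgEquiv.ofBijective
      (StarSubalgebra.subtype ⊤) ⟨Subtype.val_injective, fun x => ⟨⟨x, trivial⟩, rfl⟩⟩).symm)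
      fun y => ?_⟩
    rw [← hf]
    congr 1
    exact (StarAlgEquiv.ofBijective (StarSubalgebra.subtype ⊤) ⟨Subtype.val_injective,
      fun x => ⟨⟨x, trivial⟩, rfl⟩⟩ : (⊤ : StarSubalgebra ℂ (MU V)) ≃⋆ₐ[ℂ] MU V).apply_symm_apply _
  · obtain ⟨V, φ, N₁, δ, hV, hφ, hVn, ⟨f, hf⟩, h1, h2, h3, h4⟩ :=
      step_of_good (chain_good hU hP) hN hS
    exact ⟨V, φ, N₁, δ, hV, hφ, hVn, isIso_of_equiv f hf, h1, h2, h3, h4⟩

end Pool.Agent.Results.MP_a83bb2_an.IrreducibleReduction
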